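import Pool.Agent.K3K.LL
import Pool.Agent.TwoDens.Bridge

/-!
A lower bound for the minimum 2-density above the level `(k + 1) / 2`.
-/

open Finset

namespace Pool.Agent.LKB

open Pool.Agent.K3K Pool.Agent.TwoDens Pool.Agent.TwoDens.RK Pool.Agent.TwoDens.DD
  Pool.Agent.TwoDens.TS Pool.Agent.TwoDens.K3K

/-- a graph with many vertices and small independence number has a dense subset -/
theorem dense {V : Type} [LinearOrder V] (G : SimpleGraph V) [DecidableRel G.Adj]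
    {k : ℕ} (hk : 2 ≤ k) {Y : Finset V} (hY : Y.Nonempty) {θ : ℝ} (h0 : 0 ≤ θ) (h1 : θ ≤ k + 1)
    (hθ : ((k : ℝ) ^ 2 + k + 2) * al G Y ≤ ((k : ℝ) + 1) * Y.card - θ * (Y.card - 2)) :
    ∃ A ⊆ Y, 3 ≤ A.card ∧ 2 + ((k : ℝ) + 1 + θ) * (A.card - 2) ≤ (e2 G A : ℝ) := by
  obtain ⟨P, hP⟩ := exists_dec (G := G) Y
  have hc : ∑ q ∈ P, q.card = Y.card := by
    have h0 : (P.biUnion id).card = ∑ X ∈ P, X.card :=
      card_biUnion (fun A hA B hB h => hP.disj A hA B hB h)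
    rw [hP.un] at h0
    exact h0.symm
  by_contra hcon
  push Not at hcon
  have hk' : (2 : ℝ) ≤ k := by exact_mod_cast hk
  have hpart : ∀ q ∈ P, ((k : ℝ) + 1 - θ) * q.card < ((k : ℝ) ^ 2 + k + 2) * al G q - 2 * θ := by
    intro q hq
    have hI := hP.ind q hq
    have hpos : (1 : ℝ) ≤ al G q := by exact_mod_cast al_pos (G := G) hI.1
    have hq1 : 1 ≤ q.card := hI.1.card_pos
    have hb : ((k : ℝ) ^ 2 + k + 2) * 1 ≤ ((k : ℝ) ^ 2 + k + 2) * al G q :=
      mul_le_mul_of_nonneg_left hpos (by positivity)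
    rcases Nat.lt_or_ge q.card 3 with h3 | h3
    · have h4 : q.card = 1 ∨ q.card = 2 := by omega
      rcases h4 with h4 | h4
      · rw [h4]
        push_cast
        nlinarith
      · rw [h4]
        push_cast
        nlinarith
    · have h4 := hcon q (hP.sub hq) h3
      have h5 : 2 * ((k : ℝ) + 1) * q.card ≤
          (e2 G q : ℝ) + ((k : ℝ) * k + k + 2) * al G q + 2 * k := by
        exact_mod_cast lemL G hI k
      nlinarith
  have hne : P.Nonempty := by
    rw [nonempty_iff_ne_empty]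
    intro h
    have h2 := hP.un
    rw [h, biUnion_empty] at h2
    exact hY.ne_empty h2.symm
  have hsum := sum_lt_sum_of_nonempty hne hpart
  rw [← mul_sum, sum_sub_distrib, ← mul_sum, sum_const, nsmul_eq_mul] at hsum
  have e1 : ∑ q ∈ P, (q.card : ℝ) = Y.card := by exact_mod_cast hc
  have e2 : ∑ q ∈ P, (al G q : ℝ) = al G Y := by exact_mod_cast hP.sum
  rw [e1, e2] at hsum
  have e3 : (1 : ℝ) ≤ P.card := by exact_mod_cast hne.card_pos
  nlinarith

/-- above the threshold of the level `(k + 1) / 2` -/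
theorem low {k m s : ℕ} (hk : 2 ≤ k) (hs : 1 ≤ s) (h : (k ^ 2 + k + 2) * s ≤ (k + 1) * m) :
    ((k : ℝ) + 1) / 2 + (((k : ℝ) + 1) * m - ((k : ℝ) ^ 2 + k + 2) * s) / (2 * ((m : ℝ) - 2)) ≤
      minTwoDensity m (s + 1) := by
  have hm : 3 ≤ m := by
    by_contra hcon
    have h1 : m ≤ 2 := by omega
    have h2 : (k + 1) * m ≤ (k + 1) * 2 := Nat.mul_le_mul_left _ h1
    have h3 : (k ^ 2 + k + 2) * 1 ≤ (k ^ 2 + k + 2) * s := Nat.mul_le_mul_left _ hs
    nlinarith
  have hm' : (3 : ℝ) ≤ m := by exact_mod_cast hm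
  have hk' : (2 : ℝ) ≤ k := by exact_mod_cast hk
  have hs' : (1 : ℝ) ≤ s := by exact_mod_cast hs
  have h' : ((k : ℝ) ^ 2 + k + 2) * s ≤ ((k : ℝ) + 1) * m := by exact_mod_cast h
  have hpos : (0 : ℝ) < (m : ℝ) - 2 := by linarith
  set θ : ℝ := (((k : ℝ) + 1) * m - ((k : ℝ) ^ 2 + k + 2) * s) / ((m : ℝ) - 2) with hθ
  have hθm : θ * ((m : ℝ) - 2) = ((k : ℝ) + 1) * m - ((k : ℝ) ^ 2 + k + 2) * s := by
    rw [hθ]
    field_simp
  have h0 : 0 ≤ θ := div_nonneg (by linarith) hpos.le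
  have h1 : θ ≤ k + 1 := by
    rw [hθ, div_le_iff₀ hpos]
    nlinarith
  have e0 : (((k : ℝ) + 1) * m - ((k : ℝ) ^ 2 + k + 2) * s) / (2 * ((m : ℝ) - 2)) = θ / 2 := by
    rw [hθ]
    field_simp
  rw [e0]
  refine le_minTwoDensity (by omega) ?_
  intro G _ hα
  have hal : al G Finset.univ ≤ s := al_le (fun I _ hI => by
    have := hα I hI
    omega)
  have hn : (Finset.univ : Finset (Fin m)).card = m := by
    rw [Finset.card_univ, Fintype.card_fin]
  have hne : (Finset.univ : Finset (Fin m)).Nonempty := by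
    rw [← Finset.card_pos, hn]
    omega
  obtain ⟨A, _, hA3, hAe⟩ := dense G hk hne h0 h1 (by
    rw [hn, hθm]
    have h2 : (al G (Finset.univ : Finset (Fin m)) : ℝ) ≤ s := by exact_mod_cast hal
    have h3 := mul_le_mul_of_nonneg_left h2 (by positivity : (0 : ℝ) ≤ (k : ℝ) ^ 2 + k + 2)
    linarith)
  refine ⟨A, hA3, ?_⟩
  linarith

end Pool.Agent.LKB
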